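import Pool.Agent.N783.PQ.Sha

/-!
# The local step (helper595, for project PQ of helper783)

Adapted from `Pool.Agent.Y723.HJ.loc_core`.
-/

set_option autoImplicit false

open scoped Classical

namespace Pool.Agent.N595.PQ

open Polynomial Ideal
open Pool.Agent.N783.PQ
open Pool.Agent.Y723.HJ

lemma dvd_of_roots {L : Type} [Field L] [IsAlgClosed L] {f G : L[X]} (hf : f.Monic)
    (hs : f.Separable) (h : ∀ α, f.eval α = 0 → G.eval α = 0) : f ∣ G := by
  rcases eq_or_ne G 0 with hG | hG
  · rw [hG]; exact dvd_zero _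
  · have h1 : (f.roots.map fun a => X - C a).prod = f := by
      have h2 := (IsAlgClosed.splits f).eq_prod_roots
      rw [hf.leadingCoeff, C_1, one_mul] at h2
      exact h2.symm
    rw [← h1, Multiset.prod_X_sub_C_dvd_iff_le_roots hG,
      Multiset.le_iff_subset (nodup_roots hs)]
    intro α hα
    rw [mem_roots hG]
    exact h α ((mem_roots hf.ne_zero).1 hα)

theorem lcc (h1 : S_RF) (h2 : S_RFM) (h3 : S_RAT) (h4 : S_ITP) : S_LCC := by
  intro K _ _ f h f' hf1 hf2 hf hτ P T sg b hT2 hTP hsg hb hσ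
  have hgK : IsGalois K (AlgebraicClosure K) := inferInstance
  have hPP : ∀ τ : AlgebraicClosure K ≃ₐ[K] AlgebraicClosure K,
      clmap (τ : AlgebraicClosure K →+* AlgebraicClosure K) (hτ τ) (P ^ 2) = P ^ 2 := by
    intro τ
    rw [map_pow, hTP, mul_pow, hT2, mul_one]
  obtain ⟨u, v, hu, huf, huv, hc⟩ := h3 K f f' hf hτ (P ^ 2) hPP
  obtain ⟨I, hI⟩ : ∃ I, I = mi f' (u.map (algebraMap K (AlgebraicClosure K)))
    (v.map (algebraMap K (AlgebraicClosure K))) := ⟨_, rfl⟩
  rw [← hI] at hc
  have hum : (u.map (algebraMap K (AlgebraicClosure K))).Monic := hu.map _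
  have huvm : u.map (algebraMap K (AlgebraicClosure K)) ∣ f' -
      (v.map (algebraMap K (AlgebraicClosure K))) ^ 2 := by
    have := Polynomial.map_dvd (algebraMap K (AlgebraicClosure K)) huv
    rwa [Polynomial.map_sub, Polynomial.map_pow, hf] at this
  have hI0 : I ≠ ⊥ := by rw [hI]; exact mi_ne hum.ne_zero
  obtain ⟨r1, r2, r3, r4, r5⟩ := h1 (AlgebraicClosure K) f'
  obtain ⟨s, hs⟩ := r1 P I hI0 hc
  have hroot : ∀ α : AlgebraicClosure K, aeval α f = 0 ↔ f'.eval α = 0 := by
    intro α
    rw [← hf, eval_map, aeval_def]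
  -- the square
  have hsq : ∀ α, f'.eval α = 0 → s α ^ 2 = aeval α ((-1) ^ u.natDegree * u) := by
    intro α hα
    rw [r4 P I s hI0 hs α hα]
    unfold del
    rw [hI, nm_mi hum huvm, natDegree_map, eval_map, ← aeval_def, map_mul, map_pow, map_neg,
      map_one]
  have hinv : ∀ (τ : AlgebraicClosure K ≃ₐ[K] AlgebraicClosure K) (α : AlgebraicClosure K),
      f'.eval α = 0 → f'.eval (τ α) = 0 := by
    intro τ α hα
    rw [← hroot] at hα ⊢
    have e : aeval (τ α) f = τ (aeval α f) :=
      Polynomial.aeval_algHom_apply (τ : AlgebraicClosure K →ₐ[K] AlgebraicClosure K) _ _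
    rw [e, hα, map_zero]
  -- the Galois action
  have hgal : ∀ (τ : AlgebraicClosure K ≃ₐ[K] AlgebraicClosure K) (α : AlgebraicClosure K),
      f'.eval α = 0 → τ (s α) = s (τ α) * sg τ (τ α) := by
    intro τ α hα
    have g1 := h2 (AlgebraicClosure K) (AlgebraicClosure K) f' f'
      (τ : AlgebraicClosure K →+* AlgebraicClosure K) (hτ τ) P I s (fun β => τ (s (τ.symm β))) hs
      (by
        intro β _
        show τ (s (τ.symm (τ β))) = τ (s β)
        rw [AlgEquiv.symm_apply_apply])
    have g2 : I.map (mapR (τ : AlgebraicClosure K →+* AlgebraicClosure K) (hτ τ)) = I := by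
      rw [hI, map_mi, Polynomial.map_map, Polynomial.map_map]
      have : (τ : AlgebraicClosure K →+* AlgebraicClosure K).comp
          (algebraMap K (AlgebraicClosure K)) = algebraMap K (AlgebraicClosure K) := by
        ext x
        exact τ.commutes x
      rw [this]
    rw [g2, hTP] at g1
    have g3 := r3 P (T τ) I ⊤ s (sg τ) hs (hsg τ)
    rw [Ideal.mul_top] at g3
    have g4 := r2 (P * T τ) I _ _ hI0 g1 g3 (τ α) (hinv τ α hα)
    simp only [AlgEquiv.symm_apply_apply] at g4
    exact g4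
  have hsgn : ∀ (τ : AlgebraicClosure K ≃ₐ[K] AlgebraicClosure K) (α : AlgebraicClosure K),
      f'.eval α = 0 → sg τ α ^ 2 = 1 := by
    intro τ α hα
    rw [r4 (T τ) ⊤ (sg τ) top_ne_bot (hsg τ) α hα]
    unfold del
    rw [nm_top, natDegree_one, pow_zero, eval_one, mul_one]
  obtain ⟨W, hW⟩ := h4 K (AlgebraicClosure K) f hf1.sep (IsAlgClosed.splits _)
    (fun α => b α * s α) (by
      intro τ α hα
      have hα' := (hroot α).1 hα
      show τ (b α * s α) = b (τ α) * s (τ α)
      rw [map_mul, hσ τ α hα, hgal τ α hα']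
      have := hsgn τ (τ α) (hinv τ α hα')
      linear_combination (b (τ α) * s (τ α)) * this)
  refine ⟨[(u, v)], W, ?_, ?_⟩
  · intro p hp
    rw [List.mem_singleton] at hp
    subst hp
    refine ⟨hu, huf, ?_⟩
    have e : v ^ 2 - f = -(f - v ^ 2) := by ring
    show u ∣ v ^ 2 - f
    rw [e, dvd_neg]
    exact huv
  · rw [← Polynomial.map_dvd_map' (algebraMap K (AlgebraicClosure K)), hf]
    refine dvd_of_roots hf2.monic hf2.sep fun α hα => ?_
    have hα' := (hroot α).2 hα
    rw [eval_map, ← aeval_def]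
    simp only [List.map_cons, List.map_nil, List.prod_cons, List.prod_nil, mul_one]
    rw [map_sub, map_mul, ← hb α hα', ← hsq α hα, map_pow, hW α hα']
    ring

end Pool.Agent.N595.PQ
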