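import Pool.Agent.N783.PQ.Cnt

/-!
# Medium primes in the sieve (helper595, for project PQ of helper783)

The number of the elements of the box whose discriminant is divisible by the square of a prime
`P > M`, `P ^ 2 < B`, `P` not dividing `W`, is at most a quarter of the number of all elements.
-/

set_option autoImplicit false

open Polynomial

namespace Pool.Agent.N595.PQ

open Pool.Agent.N783.PQ
open Pool.Agent.N352.PJ (dd pol dis Dy D2)

/-! ### Functoriality -/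

section maps

variable {g : ℕ} {A B : Type} [CommRing A] [CommRing B]

lemma pol_map (φ : A →+* B) (a : Fin (2 * g) → A) : (pol a).map φ = pol (fun j => φ (a j)) := by
  unfold pol
  rw [Polynomial.map_add, Polynomial.map_pow, map_X, Polynomial.map_sum]
  congr 1
  refine Finset.sum_congr rfl fun j _ => ?_
  rw [Polynomial.map_mul, map_C, Polynomial.map_pow, map_X]

lemma dis_map (φ : A →+* B) (a : Fin (2 * g) → A) : φ (dis a) = dis (fun j => φ (a j)) := by
  unfold dis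
  rw [← resultant_map_map, ← derivative_map, pol_map]

end maps

lemma dis_cong {g : ℕ} (m : ℕ) (a b : Fin (2 * g) → ℤ) (h : ∀ j, (m : ℤ) ∣ a j - b j)
    (hd : (m : ℤ) ∣ dis a) : (m : ℤ) ∣ dis b := by
  have e : (fun j => (Int.castRingHom (ZMod m)) (a j)) = fun j => (Int.castRingHom (ZMod m)) (b j) := by
    funext j
    have := (ZMod.intCast_zmod_eq_zero_iff_dvd (a j - b j) m).2 (h j)
    rw [Int.cast_sub, sub_eq_zero] at this
    exact this
  have h1 := dis_map (Int.castRingHom (ZMod m)) a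
  have h2 := dis_map (Int.castRingHom (ZMod m)) b
  have h3 : (Int.castRingHom (ZMod m)) (dis a) = 0 :=
    (ZMod.intCast_zmod_eq_zero_iff_dvd (dis a) m).2 hd
  have h4 : (Int.castRingHom (ZMod m)) (dis b) = 0 := by rw [h2, ← e, ← h1, h3]
  exact (ZMod.intCast_zmod_eq_zero_iff_dvd (dis b) m).1 h4

/-! ### Boxes -/

lemma sum_side (n : ℕ) : (∑ j ∈ Finset.range n, (n + 1 - j)) * 2 = n * (n + 3) := by
  induction n with
  | zero => simp
  | succ n ih =>
    rw [Finset.sum_range_succ']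
    have e : ∀ j, n + 1 + 1 - (j + 1) = n + 1 - j := fun j => by omega
    simp_rw [e]
    rw [add_mul, ih]
    ring_nf
    omega

lemma sum_dd (g : ℕ) : ∑ j : Fin (2 * g), (2 * g + 1 - (j : ℕ)) = dd g := by
  have h := sum_side (2 * g)
  rw [← Fin.sum_univ_eq_sum_range (fun j => 2 * g + 1 - j)] at h
  unfold dd
  have e : 2 * g * (2 * g + 3) = (2 * g ^ 2 + 3 * g) * 2 := by ring
  omega

lemma side_card (L m : ℕ) (v : ℤ) (hm : 0 < m) (hL : m ≤ L) :
    ((Finset.Icc (-(L : ℤ)) L).filter (fun x => (m : ℤ) ∣ x - v)).card * m ≤ 3 * L := by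
  have e : (Finset.Icc (-(L : ℤ)) L).filter (fun x => (m : ℤ) ∣ x - v) =
      (Finset.Ioc (-(L : ℤ) - 1) L).filter (fun x => x ≡ v [ZMOD m]) := by
    ext x
    simp only [Finset.mem_filter, Finset.mem_Icc, Finset.mem_Ioc]
    rw [Int.modEq_comm, Int.modEq_iff_dvd]
    constructor
    · rintro ⟨⟨h1, h2⟩, h3⟩; exact ⟨⟨by omega, h2⟩, h3⟩
    · rintro ⟨⟨h1, h2⟩, h3⟩; exact ⟨⟨by omega, h2⟩, h3⟩
  have hm' : (0 : ℤ) < m := by exact_mod_cast hm
  have h := Int.Ioc_filter_modEq_card (-(L : ℤ) - 1) L hm' v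
  rw [← e] at h
  set c := ((Finset.Icc (-(L : ℤ)) L).filter (fun x => (m : ℤ) ∣ x - v)).card with hc
  have hmq : (0 : ℚ) < m := by exact_mod_cast hm
  have h1 : (c : ℚ) * m < 2 * L + 1 + m := by
    have h2 : (c : ℚ) < (2 * L + 1) / m + 1 := by
      rcases le_total (⌊((L : ℤ) - v : ℚ) / ((m : ℤ) : ℚ)⌋ - ⌊((-(L : ℤ) - 1 : ℤ) - v : ℚ) / ((m : ℤ) : ℚ)⌋) 0
        with h0 | h0
      · rw [max_eq_right h0] at h
        have : (c : ℚ) = 0 := by exact_mod_cast h
        rw [this]; positivity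
      · rw [max_eq_left h0] at h
        have h3 : (c : ℚ) = (⌊((L : ℤ) - v : ℚ) / ((m : ℤ) : ℚ)⌋ : ℚ) -
            (⌊((-(L : ℤ) - 1 : ℤ) - v : ℚ) / ((m : ℤ) : ℚ)⌋ : ℚ) := by exact_mod_cast h
        have h4 := Int.floor_le (((L : ℤ) - v : ℚ) / ((m : ℤ) : ℚ))
        have h5 := Int.lt_floor_add_one (((-(L : ℤ) - 1 : ℤ) - v : ℚ) / ((m : ℤ) : ℚ))
        have h6 : (((L : ℤ) - v : ℚ) / ((m : ℤ) : ℚ)) - (((-(L : ℤ) - 1 : ℤ) - v : ℚ) / ((m : ℤ) : ℚ))
            = (2 * L + 1) / m := by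
          push_cast
          rw [← sub_div]
          congr 1; ring
        linarith
    calc (c : ℚ) * m < ((2 * L + 1) / m + 1) * m := mul_lt_mul_of_pos_right h2 hmq
      _ = _ := by field_simp
  have h7 : c * m < 2 * L + 1 + m := by exact_mod_cast h1
  omega

lemma box_card (g B m : ℕ) (A : Fin (2 * g) → ℤ) (hm : 0 < m) (hB : m ≤ B ^ 2) :
    (Bx g B m A).Finite ∧ (Bx g B m A).ncard * m ^ (2 * g) ≤ 3 ^ (2 * g) * B ^ dd g := by
  classical
  set S : Fin (2 * g) → Finset ℤ := fun j =>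
    (Finset.Icc (-((B ^ (2 * g + 1 - (j : ℕ)) : ℕ) : ℤ)) ((B ^ (2 * g + 1 - (j : ℕ)) : ℕ) : ℤ)).filter
      (fun x => (m : ℤ) ∣ x - A j) with hS
  have e : Bx g B m A = ↑(Fintype.piFinset S) := by
    ext a
    simp only [Bx, Set.mem_ofPred_eq, Finset.mem_coe, Fintype.mem_piFinset, hS, Finset.mem_filter,
      Finset.mem_Icc]
    constructor
    · rintro ⟨h1, h2⟩ j
      have := abs_le.1 (h1 j)
      exact ⟨⟨by push_cast; exact this.1, by push_cast; exact this.2⟩, h2 j⟩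
    · intro h
      refine ⟨fun j => abs_le.2 ⟨?_, ?_⟩, fun j => (h j).2⟩
      · have := (h j).1.1; push_cast at this; exact this
      · have := (h j).1.2; push_cast at this; exact this
  rw [e]
  refine ⟨Finset.finite_toSet _, ?_⟩
  rw [Set.ncard_coe_finset, Fintype.card_piFinset]
  have hB1 : 1 ≤ B := by
    by_contra h
    have : B = 0 := by omega
    subst this
    simp at hB; omega
  calc (∏ j, (S j).card) * m ^ (2 * g) = ∏ j : Fin (2 * g), ((S j).card * m) := by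
        rw [Finset.prod_mul_distrib, Finset.prod_const, Finset.card_univ, Fintype.card_fin]
    _ ≤ ∏ j : Fin (2 * g), (3 * B ^ (2 * g + 1 - (j : ℕ))) := by
        refine Finset.prod_le_prod' fun j _ => side_card _ m _ hm ?_
        refine hB.trans (Nat.pow_le_pow_right hB1 ?_)
        have := j.2
        omega
    _ = 3 ^ (2 * g) * B ^ dd g := by
        rw [Finset.prod_mul_distrib, Finset.prod_const, Finset.card_univ, Fintype.card_fin,
          Finset.prod_pow_eq_pow_sum, sum_dd]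

/-! ### One prime -/

/-- The constant of `S_LD`. -/
def cc (g : ℕ) : ℕ := 2 * g + 2 * g * (2 * g - 1) * (2 * g + 1)

lemma one_prime (h1 : S_LD) (h2 : S_BX) {g : ℕ} (hg : 1 ≤ g) {B W : ℕ} (A : Fin (2 * g) → ℤ)
    (hW : 0 < W) (hWB : W ≤ B) {P : ℕ} (hP : P.Prime) (hgP : 2 * g + 1 < P) (hPB : P ^ 2 < B)
    (hPW : ¬ P ∣ W) :
    {a ∈ Bx g B W A | (P : ℤ) ^ 2 ∣ dis a}.ncard * P ^ 2 ≤
      cc g * 3 ^ (2 * g) * (Bx g B W A).ncard := by
  classical
  set T : Set (Fin (2 * g) → ℤ) :=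
    {a | (∀ j, 0 ≤ a j ∧ a j < P ^ 2) ∧ (P : ℤ) ^ 2 ∣ dis a} with hT
  have hTf : T.Finite := by
    refine Set.Finite.subset (Fintype.piFinset fun _ : Fin (2 * g) =>
      Finset.Ico (0 : ℤ) (P ^ 2)).finite_toSet fun a ha => ?_
    simp only [Finset.mem_coe, Fintype.mem_piFinset, Finset.mem_Ico]
    exact ha.1
  have hPpos : 0 < P := hP.pos
  have hm : 0 < W * P ^ 2 := by positivity
  have hmB : W * P ^ 2 ≤ B ^ 2 := by
    rw [sq B]; exact Nat.mul_le_mul hWB hPB.le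
  have hcop : IsCoprime (W : ℤ) ((P : ℤ) ^ 2) := by
    apply IsCoprime.pow_right
    rw [Nat.isCoprime_iff_coprime]
    exact ((Nat.Prime.coprime_iff_not_dvd hP).2 hPW).symm
  obtain ⟨u, v, huv⟩ := hcop
  set A' : (Fin (2 * g) → ℤ) → (Fin (2 * g) → ℤ) := fun b j =>
    A j * (v * (P : ℤ) ^ 2) + b j * (u * W) with hA'
  set n : ℕ := 3 ^ (2 * g) * B ^ dd g / (W * P ^ 2) ^ (2 * g) with hn
  set F : (Fin (2 * g) → ℤ) → Finset (Fin (2 * g) → ℤ) := fun b =>
    (box_card g B (W * P ^ 2) (A' b) hm hmB).1.toFinset with hF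
  have hFn : ∀ b ∈ hTf.toFinset, (F b).card ≤ n := by
    intro b _
    rw [hn, Nat.le_div_iff_mul_le (by positivity)]
    have := (box_card g B (W * P ^ 2) (A' b) hm hmB).2
    rwa [Set.ncard_eq_toFinset_card _ (box_card g B (W * P ^ 2) (A' b) hm hmB).1] at this
  have hcard := Finset.card_biUnion_le_card_mul hTf.toFinset F n hFn
  have hsub : {a ∈ Bx g B W A | (P : ℤ) ^ 2 ∣ dis a} ⊆ ↑(hTf.toFinset.biUnion F) := by
    rintro a ⟨ha, had⟩
    have hPne : ((P : ℤ) ^ 2) ≠ 0 := by positivity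
    have hPp : (0 : ℤ) < (P : ℤ) ^ 2 := by positivity
    set b : Fin (2 * g) → ℤ := fun j => a j % (P : ℤ) ^ 2 with hb
    have hab : ∀ j, (P : ℤ) ^ 2 ∣ a j - b j := fun j => Int.dvd_self_sub_emod
    have hbT : b ∈ T := by
      refine ⟨fun j => ⟨Int.emod_nonneg _ hPne, Int.emod_lt_of_pos _ hPp⟩, ?_⟩
      have := dis_cong (P ^ 2) a b (by intro j; push_cast; exact hab j) (by push_cast; exact had)
      push_cast at this
      exact this
    simp only [Finset.coe_biUnion, Set.mem_iUnion, Finset.mem_coe, Set.Finite.mem_toFinset]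
    refine ⟨b, hbT, ?_⟩
    simp only [hF, Set.Finite.mem_toFinset]
    refine ⟨ha.1, fun j => ?_⟩
    have hW1 : (W : ℤ) ∣ a j - A' b j := by
      have : a j - A' b j = (a j - A j) + W * (u * (A j - b j)) := by
        simp only [hA']
        have : v * (P : ℤ) ^ 2 = 1 - u * W := by linarith
        rw [this]; ring
      rw [this]
      exact dvd_add (ha.2 j) (Dvd.intro _ rfl)
    have hP1 : (P : ℤ) ^ 2 ∣ a j - A' b j := by
      have : a j - A' b j = (a j - b j) + (P : ℤ) ^ 2 * (v * (b j - A j)) := by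
        simp only [hA']
        have : u * (W : ℤ) = 1 - v * (P : ℤ) ^ 2 := by linarith
        rw [this]; ring
      rw [this]
      exact dvd_add (hab j) (Dvd.intro _ rfl)
    have := IsCoprime.mul_dvd ⟨u, v, huv⟩ hW1 hP1
    push_cast
    exact this
  have hle : {a ∈ Bx g B W A | (P : ℤ) ^ 2 ∣ dis a}.ncard ≤ T.ncard * n := by
    rw [Set.ncard_eq_toFinset_card _ hTf]
    refine le_trans ?_ hcard
    have := Set.ncard_le_ncard hsub (Finset.finite_toSet _)
    rwa [Set.ncard_coe_finset] at this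
  set N := {a ∈ Bx g B W A | (P : ℤ) ^ 2 ∣ dis a}.ncard with hN
  have hld : T.ncard * P ^ 2 ≤ cc g * P ^ (4 * g) := h1 g P hg hP hgP
  have hbx : B ^ dd g ≤ (Bx g B W A).ncard * W ^ (2 * g) := (h2 g B W A hW hWB).2.1
  have hn2 : n * (W * P ^ 2) ^ (2 * g) ≤ 3 ^ (2 * g) * B ^ dd g := Nat.div_mul_le_self _ _
  have hfin : N * P ^ 2 * (W * P ^ 2) ^ (2 * g) ≤
      cc g * 3 ^ (2 * g) * (Bx g B W A).ncard * (W * P ^ 2) ^ (2 * g) := by
    calc N * P ^ 2 * (W * P ^ 2) ^ (2 * g) ≤ (T.ncard * n) * P ^ 2 * (W * P ^ 2) ^ (2 * g) := by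
          gcongr
      _ = (T.ncard * P ^ 2) * (n * (W * P ^ 2) ^ (2 * g)) := by ring
      _ ≤ (cc g * P ^ (4 * g)) * (3 ^ (2 * g) * ((Bx g B W A).ncard * W ^ (2 * g))) := by
          refine Nat.mul_le_mul hld (hn2.trans ?_)
          gcongr
      _ = _ := by
          rw [mul_pow, ← pow_mul, show 2 * (2 * g) = 4 * g by ring]
          ring
  exact Nat.le_of_mul_le_mul_right hfin (by positivity)

/-! ### The sum -/

theorem sml (h1 : S_LD) (h2 : S_BX) : S_SML := by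
  classical
  intro g hg
  set K : ℕ := cc g * 3 ^ (2 * g) with hK
  refine ⟨4 * K + 2 * g + 1, fun B W A hW hWB => ?_⟩
  set M : ℕ := 4 * K + 2 * g + 1 with hM
  set U : Set (Fin (2 * g) → ℤ) := {a ∈ Bx g B W A | ∃ P : ℕ, P.Prime ∧ M < P ∧ P ^ 2 < B ∧ ¬ P ∣ W ∧
    (P : ℤ) ^ 2 ∣ dis a} with hU
  have hBf : (Bx g B W A).Finite := (h2 g B W A hW hWB).1
  set X : ℕ := (Bx g B W A).ncard with hX
  set I : Finset ℕ := (Finset.Ioc M (max M B)).filter
    (fun P => P.Prime ∧ P ^ 2 < B ∧ ¬ P ∣ W) with hI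
  have hVf : ∀ P : ℕ, {a ∈ Bx g B W A | (P : ℤ) ^ 2 ∣ dis a}.Finite := fun P =>
    hBf.subset fun a ha => ha.1
  have hsub : U ⊆ ↑(I.biUnion fun P => (hVf P).toFinset) := by
    rintro a ⟨ha, P, hP, hMP, hPB, hPW, hd⟩
    simp only [Finset.coe_biUnion, Set.mem_iUnion, Finset.mem_coe]
    refine ⟨P, ?_, ?_⟩
    · rw [hI, Finset.mem_filter, Finset.mem_Ioc]
      refine ⟨⟨hMP, ?_⟩, hP, hPB, hPW⟩
      refine le_trans ?_ (le_max_right _ _)
      have : P ≤ P ^ 2 := Nat.le_self_pow (by norm_num) P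
      omega
    · rw [Set.Finite.mem_toFinset]
      exact ⟨ha, hd⟩
  have hU1 : U.ncard ≤ ∑ P ∈ I, {a ∈ Bx g B W A | (P : ℤ) ^ 2 ∣ dis a}.ncard := by
    have h3 := Set.ncard_le_ncard hsub (Finset.finite_toSet _)
    rw [Set.ncard_coe_finset] at h3
    refine h3.trans (Finset.card_biUnion_le.trans (Finset.sum_le_sum fun P _ => ?_))
    rw [Set.ncard_eq_toFinset_card _ (hVf P)]
  have hM0 : M ≠ 0 := by omega
  have hMpos : (0 : ℝ) < M := by positivity
  have hU2 : (U.ncard : ℝ) ≤ K * X * (M : ℝ)⁻¹ := by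
    calc (U.ncard : ℝ) ≤ ∑ P ∈ I, ({a ∈ Bx g B W A | (P : ℤ) ^ 2 ∣ dis a}.ncard : ℝ) := by
          exact_mod_cast hU1
      _ ≤ ∑ P ∈ I, (K * X : ℝ) * ((P : ℝ) ^ 2)⁻¹ := by
          refine Finset.sum_le_sum fun P hP => ?_
          rw [hI, Finset.mem_filter, Finset.mem_Ioc] at hP
          obtain ⟨⟨hMP, _⟩, hPp, hPB, hPW⟩ := hP
          have h4 := one_prime h1 h2 hg A hW hWB hPp (by omega) hPB hPW
          have h5 : ({a ∈ Bx g B W A | (P : ℤ) ^ 2 ∣ dis a}.ncard : ℝ) * (P : ℝ) ^ 2 ≤ K * X := by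
            rw [hK, hX]
            exact_mod_cast h4
          have h6 : (0 : ℝ) < (P : ℝ) ^ 2 := by
            have : 0 < P := hPp.pos
            positivity
          rw [← div_eq_mul_inv, le_div_iff₀ h6]
          exact h5
      _ ≤ ∑ P ∈ Finset.Ioc M (max M B), (K * X : ℝ) * ((P : ℝ) ^ 2)⁻¹ := by
          refine Finset.sum_le_sum_of_subset_of_nonneg (Finset.filter_subset _ _) fun P _ _ => ?_
          positivity
      _ = (K * X : ℝ) * ∑ P ∈ Finset.Ioc M (max M B), ((P : ℝ) ^ 2)⁻¹ := by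
          rw [Finset.mul_sum]
      _ ≤ (K * X : ℝ) * ((M : ℝ)⁻¹ - ((max M B : ℕ) : ℝ)⁻¹) := by
          refine mul_le_mul_of_nonneg_left (sum_Ioc_inv_sq_le_sub hM0 (le_max_left _ _))
            (by positivity)
      _ ≤ K * X * (M : ℝ)⁻¹ := by
          refine mul_le_mul_of_nonneg_left ?_ (by positivity)
          have : (0 : ℝ) ≤ ((max M B : ℕ) : ℝ)⁻¹ := by positivity
          linarith
  have hKM : 4 * (K : ℝ) ≤ M := by
    have : 4 * K ≤ M := by omega
    exact_mod_cast this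
  have hfin : 4 * (U.ncard : ℝ) ≤ X := by
    have hX0 : (0 : ℝ) ≤ X := by positivity
    calc 4 * (U.ncard : ℝ) ≤ 4 * (K * X * (M : ℝ)⁻¹) := by linarith
      _ = (4 * K) * (M : ℝ)⁻¹ * X := by ring
      _ ≤ 1 * X := by
          refine mul_le_mul_of_nonneg_right ?_ hX0
          rw [← div_eq_mul_inv, div_le_one hMpos]
          exact hKM
      _ = X := one_mul _
  exact_mod_cast hfin

end Pool.Agent.N595.PQ
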